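import Mathlib
import Pool.Agent.helper87.PI.Defs

set_option autoImplicit false

/-! pi:D1 (project PI, MP_93b131_co): closure properties of `Good`. -/

namespace Pool.Agent.helper87.PI

open Finset

section block

variable {X Y : Type} [Fintype X] [Fintype Y] [DecidableEq X] [DecidableEq Y]

/-- pi:D1 -/
theorem good_empty : Good (∅ : Finset (X × Y)) 1 := by
  refine ⟨fun _ => 0, ?_, ?_⟩
  · intro e he
    simp at he
  · have h : ((univ.image (palX (∅ : Finset (X × Y)) (fun _ => 0))) ∪
        (univ.image (palY (∅ : Finset (X × Y)) (fun _ => 0)))) ⊆ {∅} := by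
      intro P hP
      rw [mem_union, mem_image, mem_image] at hP
      rcases hP with ⟨x, _, rfl⟩ | ⟨y, _, rfl⟩
      · simp [palX]
      · simp [palY]
    exact (card_le_card h).trans (by simp)

/-- pi:D1 -/
theorem good_mono {E : Finset (X × Y)} {N M : ℕ} (h : Good E N) (hNM : N ≤ M) : Good E M := by
  obtain ⟨c, hc, hN⟩ := h
  exact ⟨c, hc, hN.trans hNM⟩

/-- the colouring of the union -/
noncomputable def D1_c (E : Finset (X × Y)) (c c' : X × Y → ℕ) : X × Y → ℕ :=
  fun e => if e ∈ E then 2 * c e else 2 * c' e + 1

theorem D1_palX (E F : Finset (X × Y)) (c c' : X × Y → ℕ) (hd : Disjoint E F) (x : X) :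
    palX (E ∪ F) (D1_c E c c') x =
      (palX E c x).image (fun n => 2 * n) ∪ (palX F c' x).image (fun n => 2 * n + 1) := by
  unfold palX
  rw [filter_union, image_union, image_image, image_image]
  congr 1
  · refine image_congr ?_
    intro e he
    rw [mem_coe, mem_filter] at he
    simp [D1_c, he.1]
  · refine image_congr ?_
    intro e he
    rw [mem_coe, mem_filter] at he
    have : e ∉ E := fun h => (disjoint_left.1 hd) h he.1
    simp [D1_c, this]

theorem D1_palY (E F : Finset (X × Y)) (c c' : X × Y → ℕ) (hd : Disjoint E F) (y : Y) :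
    palY (E ∪ F) (D1_c E c c') y =
      (palY E c y).image (fun n => 2 * n) ∪ (palY F c' y).image (fun n => 2 * n + 1) := by
  unfold palY
  rw [filter_union, image_union, image_image, image_image]
  congr 1
  · refine image_congr ?_
    intro e he
    rw [mem_coe, mem_filter] at he
    simp [D1_c, he.1]
  · refine image_congr ?_
    intro e he
    rw [mem_coe, mem_filter] at he
    have : e ∉ E := fun h => (disjoint_left.1 hd) h he.1
    simp [D1_c, this]

/-- pi:D1 -/
theorem good_union {E F : Finset (X × Y)} {N M : ℕ} (hE : Good E N) (hF : Good F M)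
    (hd : Disjoint E F) : Good (E ∪ F) (N * M) := by
  obtain ⟨c, hc, hN⟩ := hE
  obtain ⟨c', hc', hM⟩ := hF
  refine ⟨D1_c E c c', ?_, ?_⟩
  · intro e he f hf hef hadj
    have hEF : ∀ g, g ∈ E ∪ F → g ∉ E → g ∈ F := by
      intro g hg hgE
      rcases mem_union.1 hg with h | h
      · exact absurd h hgE
      · exact h
    by_cases h1 : e ∈ E <;> by_cases h2 : f ∈ E
    · simp only [D1_c, h1, h2, if_true]
      have := hc e h1 f h2 hef hadj
      omega
    · simp only [D1_c, h1, h2, if_true, if_false]
      omega
    · simp only [D1_c, h1, h2, if_true, if_false]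
      omega
    · simp only [D1_c, h1, h2, if_false]
      have := hc' e (hEF e he h1) f (hEF f hf h2) hef hadj
      omega
  · refine le_trans ?_ (Nat.mul_le_mul hN hM)
    rw [← card_product]
    refine le_trans (card_le_card ?_) (card_image_le (f := fun p : Finset ℕ × Finset ℕ =>
      p.1.image (fun n => 2 * n) ∪ p.2.image (fun n => 2 * n + 1)))
    intro P hP
    rw [mem_union, mem_image, mem_image] at hP
    rw [mem_image]
    rcases hP with ⟨x, _, rfl⟩ | ⟨y, _, rfl⟩
    · refine ⟨(palX E c x, palX F c' x), ?_, ?_⟩
      · rw [mem_product]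
        exact ⟨mem_union_left _ (mem_image_of_mem _ (mem_univ _)),
          mem_union_left _ (mem_image_of_mem _ (mem_univ _))⟩
      · exact (D1_palX E F c c' hd x).symm
    · refine ⟨(palY E c y, palY F c' y), ?_, ?_⟩
      · rw [mem_product]
        exact ⟨mem_union_right _ (mem_image_of_mem _ (mem_univ _)),
          mem_union_right _ (mem_image_of_mem _ (mem_univ _))⟩
      · exact (D1_palY E F c c' hd y).symm

theorem D1_aux {r : ℕ} (E : Fin r → Finset (X × Y)) (N : ℕ) (hE : ∀ i, Good (E i) N)
    (hd : ∀ i j, i ≠ j → Disjoint (E i) (E j)) (s : Finset (Fin r)) :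
    Good (s.biUnion E) (N ^ s.card) := by
  induction s using Finset.induction_on with
  | empty =>
    rw [biUnion_empty, card_empty, pow_zero]
    exact good_empty
  | insert a s ha ih =>
    rw [biUnion_insert, card_insert_of_notMem ha, pow_succ, mul_comm]
    refine good_union (hE a) ih ?_
    rw [disjoint_biUnion_right]
    intro i hi
    refine hd a i ?_
    rintro rfl
    exact ha hi

/-- pi:D1 -/
theorem good_biUnion {r : ℕ} (E : Fin r → Finset (X × Y)) (N : ℕ) (hE : ∀ i, Good (E i) N)
    (hd : ∀ i j, i ≠ j → Disjoint (E i) (E j)) : Good (univ.biUnion E) (N ^ r) := by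
  have h := D1_aux E N hE hd univ
  rwa [card_univ, Fintype.card_fin] at h

/-- pi:D1 -/
theorem good_swap {E : Finset (X × Y)} {N : ℕ} (hE : Good (E.map (Equiv.prodComm X Y).toEmbedding) N) :
    Good E N := by
  obtain ⟨c, hc, hN⟩ := hE
  have hmem : ∀ e, e ∈ E → e.swap ∈ E.map (Equiv.prodComm X Y).toEmbedding := by
    intro e he
    rw [mem_map]
    exact ⟨e, he, rfl⟩
  refine ⟨fun e => c e.swap, ?_, ?_⟩
  · intro e he f hf hef hadj
    refine hc e.swap (hmem e he) f.swap (hmem f hf) ?_ ?_
    · intro h
      exact hef (Prod.swap_injective h)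
    · rcases hadj with h | h
      · exact Or.inr h
      · exact Or.inl h
  · refine le_trans (card_le_card ?_) hN
    have hX : ∀ x, palX E (fun e => c e.swap) x =
        palY (E.map (Equiv.prodComm X Y).toEmbedding) c x := by
      intro x
      unfold palX palY
      rw [filter_map, map_eq_image, image_image]
      rfl
    have hY : ∀ y, palY E (fun e => c e.swap) y =
        palX (E.map (Equiv.prodComm X Y).toEmbedding) c y := by
      intro y
      unfold palX palY
      rw [filter_map, map_eq_image, image_image]
      rfl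
    intro P hP
    rw [mem_union, mem_image, mem_image] at hP
    rcases hP with ⟨x, _, rfl⟩ | ⟨y, _, rfl⟩
    · rw [hX]
      exact mem_union_right _ (mem_image_of_mem _ (mem_univ _))
    · rw [hY]
      exact mem_union_left _ (mem_image_of_mem _ (mem_univ _))

end block

end Pool.Agent.helper87.PI
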