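import Mathlib

set_option autoImplicit false

/-! pi:D2 (project PI, MP_93b131_co): the number of small and of large subsets of `Fin q`. -/

namespace Pool.Agent.helper87.PI

open Finset

theorem D2_small (q s : ℕ) :
    ((univ : Finset (Finset (Fin q))).filter (fun P => P.card ≤ s)).card ≤ (q + 1) ^ s := by
  classical
  have hcard : (univ : Finset (Fin s → Option (Fin q))).card = (q + 1) ^ s := by
    rw [card_univ, Fintype.card_fun, Fintype.card_option, Fintype.card_fin, Fintype.card_fin]
  rw [← hcard]
  refine le_trans (card_le_card ?_) (card_image_le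
    (f := fun f : Fin s → Option (Fin q) => univ.filter (fun a : Fin q => ∃ i, f i = some a)))
  intro P hP
  rw [mem_filter] at hP
  rw [mem_image]
  refine ⟨fun i => if h : (i : ℕ) < P.card then some (P.equivFin.symm ⟨i, h⟩ : Fin q) else none,
    mem_univ _, ?_⟩
  ext a
  rw [mem_filter]
  constructor
  · rintro ⟨_, i, hi⟩
    dsimp only at hi
    by_cases h : (i : ℕ) < P.card
    · rw [dif_pos h] at hi
      have h2 := Option.some.inj hi
      rw [← h2]
      exact (P.equivFin.symm ⟨i, h⟩).2
    · rw [dif_neg h] at hi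
      exact absurd hi (by simp)
  · intro ha
    refine ⟨mem_univ _, ?_⟩
    have hlt : ((P.equivFin ⟨a, ha⟩ : Fin P.card) : ℕ) < s :=
      lt_of_lt_of_le (P.equivFin ⟨a, ha⟩).2 hP.2
    refine ⟨⟨_, hlt⟩, ?_⟩
    have h : ((P.equivFin ⟨a, ha⟩ : Fin P.card) : ℕ) < P.card := (P.equivFin ⟨a, ha⟩).2
    dsimp only
    rw [dif_pos h]
    simp

/-- pi:D2 -- number of subsets of `Fin q` with at most `s` elements missing / present -/
theorem card_small (q s : ℕ) :
    ((univ : Finset (Finset (Fin q))).filter (fun P => P.card ≤ s)).card ≤ (q + 1) ^ s ∧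
    ((univ : Finset (Finset (Fin q))).filter (fun P => q - s ≤ P.card)).card ≤ (q + 1) ^ s := by
  refine ⟨D2_small q s, le_trans ?_ (D2_small q s)⟩
  refine card_le_card_of_injOn (fun P => Pᶜ) ?_ ?_
  · intro P hP
    rw [mem_coe, mem_filter] at hP ⊢
    refine ⟨mem_univ _, ?_⟩
    rw [card_compl, Fintype.card_fin]
    have := hP.2
    omega
  · intro P _ Q _ h
    exact compl_injective h

end Pool.Agent.helper87.PI
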