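import Mathlib
import Pool.Agent.helper87.PI.Defs
import Pool.Agent.helper15.PI.B2
import Pool.Agent.helper29.PI.D2

set_option autoImplicit false

/-! pi:D3 (project PI, MP_93b131_co): colouring the output of the block lemma. -/

namespace Pool.Agent.helper87.PI

open Finset

section block

variable {X Y : Type} [DecidableEq X] [DecidableEq Y]

theorem D3_deg (E H : Finset (X × Y)) (R q : ℕ) (t : Y → Option (Fin R))
    (ht : ∀ e ∈ H, t e.2 ≠ none)
    (hx : ∀ x, dX E x ≠ 0 → ∀ j : Fin R,
      (H.filter (fun e => e.1 = x ∧ t e.2 = some j)).card = q) (x : X) (hxE : dX E x ≠ 0) :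
    dX H x = R * q := by
  unfold dX
  rw [card_eq_sum_card_fiberwise (f := fun e : X × Y => t e.2)
    (t := (univ : Finset (Option (Fin R)))) (fun e _ => mem_coe.2 (mem_univ _)),
    Fintype.sum_option]
  have h0 : ((H.filter (fun e => e.1 = x)).filter (fun e => t e.2 = none)).card = 0 := by
    rw [card_eq_zero, filter_filter, filter_eq_empty_iff]
    intro e he h
    exact ht e he h.2
  rw [h0, zero_add]
  have h1 : ∀ j : Fin R,
      ((H.filter (fun e => e.1 = x)).filter (fun e => t e.2 = some j)).card = q := by
    intro j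
    rw [filter_filter]
    exact hx x hxE j
  rw [sum_congr rfl (fun j _ => h1 j), sum_const, card_univ, Fintype.card_fin, smul_eq_mul]

/-- the colour: block number times `q` plus the colour inside the block -/
noncomputable def D3_c {R : ℕ} (q : ℕ) (t : Y → Option (Fin R)) (c : Fin R → X × Y → ℕ) :
    X × Y → ℕ :=
  fun e => (t e.2).elim 0 (fun j => (j : ℕ) * q + c j e)

theorem D3_c_some {R : ℕ} (q : ℕ) (t : Y → Option (Fin R)) (c : Fin R → X × Y → ℕ) (e : X × Y)
    (j : Fin R) (h : t e.2 = some j) : D3_c q t c e = (j : ℕ) * q + c j e := by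
  unfold D3_c
  rw [h]
  rfl

theorem D3_block {q a b i j : ℕ} (ha : a < q) (hb : b < q) (h : i * q + a = j * q + b) :
    i = j ∧ a = b := by
  have hq : 0 < q := by omega
  have h1 : (i * q + a) / q = i := by
    rw [mul_comm, Nat.mul_add_div hq, Nat.div_eq_of_lt ha, add_zero]
  have h2 : (j * q + b) / q = j := by
    rw [mul_comm, Nat.mul_add_div hq, Nat.div_eq_of_lt hb, add_zero]
  have hij : i = j := by rw [← h1, ← h2, h]
  subst hij
  exact ⟨rfl, by omega⟩

theorem D3_colr_of [Fintype X] [Fintype Y]
    (konig' : ∀ (q : ℕ) (H : Finset (X × Y)), (∀ x, dX H x ≤ q) → (∀ y, dY H y ≤ q) →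
      ∃ c : X × Y → ℕ, Proper H c ∧ ∀ e ∈ H, c e < q)
    (E H : Finset (X × Y)) (R q s : ℕ) (t : Y → Option (Fin R)) (hH : H ⊆ E)
    (ht : ∀ e ∈ H, t e.2 ≠ none)
    (hx : ∀ x, dX E x ≠ 0 → ∀ j : Fin R,
      (H.filter (fun e => e.1 = x ∧ t e.2 = some j)).card = q)
    (hy : ∀ y, dY H y = 0 ∨ (q - s ≤ dY H y ∧ dY H y ≤ q)) :
    Good H (R * (q + 1) ^ s + 2) ∧ ∀ x, dX E x ≠ 0 → dX H x = R * q := by
  classical
  refine ⟨?_, fun x hxE => D3_deg E H R q t ht hx x hxE⟩
  -- the blocks
  set Hj : Fin R → Finset (X × Y) := fun j => H.filter (fun e => t e.2 = some j) with hHj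
  have hne : ∀ x, ∀ e ∈ H, e.1 = x → dX E x ≠ 0 := by
    intro x e he hex h0
    unfold dX at h0
    rw [card_eq_zero, filter_eq_empty_iff] at h0
    exact h0 (hH he) hex
  have hdx : ∀ j x, dX (Hj j) x ≤ q := by
    intro j x
    by_cases hxE : dX E x = 0
    · have : dX (Hj j) x = 0 := by
        unfold dX
        rw [card_eq_zero, filter_eq_empty_iff]
        intro e he hex
        exact hne x e (mem_filter.1 he).1 hex hxE
      omega
    · have h1 := hx x hxE j
      refine le_of_eq ?_
      rw [← h1]
      unfold dX
      rw [hHj, filter_filter]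
      congr 1
      ext e
      simp only [mem_filter]
      tauto
  have hdy : ∀ j y, dY (Hj j) y ≤ q := by
    intro j y
    have h1 : dY (Hj j) y ≤ dY H y := by
      unfold dY
      exact card_le_card (filter_subset_filter _ (filter_subset _ _))
    rcases hy y with h | h
    · omega
    · exact h1.trans h.2
  choose c hcP hcq using fun j => konig' q (Hj j) (hdx j) (hdy j)
  have hmemj : ∀ e ∈ H, ∃ j, t e.2 = some j ∧ e ∈ Hj j := by
    intro e he
    obtain ⟨j, hj⟩ := Option.ne_none_iff_exists'.1 (ht e he)
    exact ⟨j, hj, mem_filter.2 ⟨he, hj⟩⟩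
  have hproper : Proper H (D3_c q t c) := by
    intro e he f hf hef hadj heq
    obtain ⟨j, hj, hej⟩ := hmemj e he
    obtain ⟨i, hi, hfi⟩ := hmemj f hf
    rw [D3_c_some q t c e j hj, D3_c_some q t c f i hi] at heq
    obtain ⟨hji, hcc⟩ := D3_block (hcq j e hej) (hcq i f hfi) heq
    have hji' : j = i := Fin.ext hji
    subst hji'
    exact hcP j e hej f hfi hef hadj hcc
  refine ⟨D3_c q t c, hproper, ?_⟩
  -- the palettes
  set W : Finset (Finset ℕ) := ((univ : Finset (Fin R)) ×ˢ
    ((univ : Finset (Finset (Fin q))).filter (fun P => q - s ≤ P.card))).image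
      (fun p => p.2.image (fun a : Fin q => (p.1 : ℕ) * q + (a : ℕ))) with hW
  have hWcard : W.card ≤ R * (q + 1) ^ s := by
    refine card_image_le.trans ?_
    rw [card_product, card_univ, Fintype.card_fin]
    exact Nat.mul_le_mul_left _ (card_small q s).2
  have hsub : (univ.image (palX H (D3_c q t c))) ∪ (univ.image (palY H (D3_c q t c))) ⊆
      W ∪ {∅, range (R * q)} := by
    intro P hP
    rw [mem_union, mem_image, mem_image] at hP
    rcases hP with ⟨x, _, rfl⟩ | ⟨y, _, rfl⟩
    · refine mem_union_right _ ?_
      rw [mem_insert, mem_singleton]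
      by_cases hxE : dX E x = 0
      · left
        unfold palX
        rw [image_eq_empty, filter_eq_empty_iff]
        intro e he hex
        exact hne x e he hex hxE
      · right
        refine eq_of_subset_of_card_le ?_ ?_
        · intro n hn
          unfold palX at hn
          rw [mem_image] at hn
          obtain ⟨e, he, rfl⟩ := hn
          rw [mem_filter] at he
          obtain ⟨j, hj, hej⟩ := hmemj e he.1
          rw [D3_c_some q t c e j hj, mem_range]
          have h1 := hcq j e hej
          have h2 : ((j : ℕ) + 1) * q ≤ R * q := Nat.mul_le_mul_right _ j.2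
          calc (j : ℕ) * q + c j e < (j : ℕ) * q + q := by omega
            _ = ((j : ℕ) + 1) * q := by ring
            _ ≤ R * q := h2
        · rw [card_range]
          unfold palX
          rw [card_image_of_injOn]
          · exact le_of_eq (D3_deg E H R q t ht hx x hxE).symm
          · intro e he f hf h
            rw [mem_coe, mem_filter] at he hf
            by_contra hef
            exact hproper e he.1 f hf.1 hef (Or.inl (he.2.trans hf.2.symm)) h
    · by_cases h0 : dY H y = 0
      · refine mem_union_right _ ?_
        rw [mem_insert]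
        left
        unfold palY
        rw [image_eq_empty, ← card_eq_zero]
        exact h0
      · refine mem_union_left _ ?_
        have hys := (hy y).resolve_left h0
        have hne' : (H.filter (fun e => e.2 = y)).Nonempty := by
          rw [← card_pos]
          exact Nat.pos_of_ne_zero h0
        obtain ⟨e0, he0⟩ := hne'
        rw [mem_filter] at he0
        obtain ⟨j, hj, hej⟩ := hmemj e0 he0.1
        rw [he0.2] at hj
        have hallj : ∀ e ∈ H, e.2 = y → e ∈ Hj j := by
          intro e he hey
          exact mem_filter.2 ⟨he, by rw [hey]; exact hj⟩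
        rw [hW, mem_image]
        refine ⟨(j, univ.filter (fun a : Fin q => ∃ e ∈ H, e.2 = y ∧ c j e = (a : ℕ))), ?_, ?_⟩
        · rw [mem_product]
          refine ⟨mem_univ _, ?_⟩
          rw [mem_filter]
          refine ⟨mem_univ _, hys.1.trans ?_⟩
          unfold dY
          refine card_le_card_of_injOn (fun e => if h : c j e < q then (⟨c j e, h⟩ : Fin q)
            else ⟨0, ?_⟩) ?_ ?_
          · have := hcq j e0 hej
            omega
          · intro e he
            rw [mem_coe, mem_filter] at he
            rw [mem_coe, mem_filter]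
            have hlt : c j e < q := hcq j e (hallj e he.1 he.2)
            refine ⟨mem_univ _, e, he.1, he.2, ?_⟩
            dsimp only
            rw [dif_pos hlt]
          · intro e he f hf h
            rw [mem_coe, mem_filter] at he hf
            have hlt : c j e < q := hcq j e (hallj e he.1 he.2)
            have hlt' : c j f < q := hcq j f (hallj f hf.1 hf.2)
            dsimp only at h
            rw [dif_pos hlt, dif_pos hlt'] at h
            by_contra hef
            exact hcP j e (hallj e he.1 he.2) f (hallj f hf.1 hf.2) hef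
              (Or.inr (he.2.trans hf.2.symm)) (Fin.mk.inj h)
        · unfold palY
          ext n
          rw [mem_image, mem_image]
          constructor
          · rintro ⟨a, ha, rfl⟩
            dsimp only at ha
            rw [mem_filter] at ha
            obtain ⟨_, e, he, hey, hca⟩ := ha
            refine ⟨e, mem_filter.2 ⟨he, hey⟩, ?_⟩
            rw [D3_c_some q t c e j (by rw [hey]; exact hj), hca]
          · rintro ⟨e, he, rfl⟩
            rw [mem_filter] at he
            have hlt : c j e < q := hcq j e (hallj e he.1 he.2)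
            refine ⟨⟨c j e, hlt⟩, ?_, ?_⟩
            · dsimp only
              rw [mem_filter]
              exact ⟨mem_univ _, e, he.1, he.2, rfl⟩
            · rw [D3_c_some q t c e j (by rw [he.2]; exact hj)]
  calc ((univ.image (palX H (D3_c q t c))) ∪ (univ.image (palY H (D3_c q t c)))).card
      ≤ (W ∪ {∅, range (R * q)}).card := card_le_card hsub
    _ ≤ W.card + ({∅, range (R * q)} : Finset (Finset ℕ)).card := card_union_le _ _
    _ ≤ R * (q + 1) ^ s + 2 := add_le_add hWcard card_le_two

end block

section final

variable {X Y : Type} [Fintype X] [Fintype Y] [DecidableEq X] [DecidableEq Y]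

/-- pi:D3 -- colouring the output of the block lemma -/
theorem colr (E H : Finset (X × Y)) (R q s : ℕ) (t : Y → Option (Fin R))
    (hH : H ⊆ E) (ht : ∀ e ∈ H, t e.2 ≠ none)
    (hx : ∀ x, dX E x ≠ 0 → ∀ j : Fin R,
      (H.filter (fun e => e.1 = x ∧ t e.2 = some j)).card = q)
    (hy : ∀ y, dY H y = 0 ∨ (q - s ≤ dY H y ∧ dY H y ≤ q)) :
    Good H (R * (q + 1) ^ s + 2) ∧ ∀ x, dX E x ≠ 0 → dX H x = R * q :=
  D3_colr_of (fun q H h1 h2 => konig q H h1 h2) E H R q s t hH ht hx hy

end final

end Pool.Agent.helper87.PI
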