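import Mathlib
import Pool.Agent.helper87.PI.Defs
import Pool.Agent.helper15.PI.B1

set_option autoImplicit false

/-! pi:C5 (project PI, MP_93b131_co): from the cut estimate to an almost regular subgraph. -/

namespace Pool.Agent.helper87.PI

open Finset

section block

variable {X Y : Type} [Fintype X] [Fintype Y] [DecidableEq X] [DecidableEq Y]

omit [Fintype X] [Fintype Y] in
theorem C5_count (φ : Y → X → ℝ) (E : Finset (X × Y))
    (hE : ∀ x y, φ y x ≠ 0 → (x, y) ∈ E) (κ : ℝ) (hφκ : ∀ y x, φ y x * κ ≤ 1)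
    (A : Finset X) (B : Finset Y) :
    (∑ y ∈ B, ∑ x ∈ A, φ y x) * κ ≤ ((E.filter (fun e => e.1 ∈ A ∧ e.2 ∈ B)).card : ℝ) := by
  have h1 : (∑ y ∈ B, ∑ x ∈ A, φ y x) * κ = ∑ e ∈ A ×ˢ B, φ e.2 e.1 * κ := by
    rw [sum_mul, sum_product_right]
    refine sum_congr rfl fun y _ => ?_
    rw [sum_mul]
  have h2 : ∑ e ∈ A ×ˢ B, φ e.2 e.1 * κ = ∑ e ∈ (A ×ˢ B).filter (fun e => e ∈ E), φ e.2 e.1 * κ := by
    rw [sum_filter]
    refine sum_congr rfl fun e _ => ?_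
    by_cases h : e ∈ E
    · rw [if_pos h]
    · rw [if_neg h]
      have : φ e.2 e.1 = 0 := by
        by_contra h0
        exact h (hE e.1 e.2 h0)
      rw [this, zero_mul]
  rw [h1, h2]
  calc ∑ e ∈ (A ×ˢ B).filter (fun e => e ∈ E), φ e.2 e.1 * κ
      ≤ ∑ e ∈ (A ×ˢ B).filter (fun e => e ∈ E), (1 : ℝ) := sum_le_sum fun e _ => hφκ e.2 e.1
    _ = (((A ×ˢ B).filter (fun e => e ∈ E)).card : ℝ) := by rw [sum_const, nsmul_eq_mul, mul_one]
    _ ≤ ((E.filter (fun e => e.1 ∈ A ∧ e.2 ∈ B)).card : ℝ) := by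
        refine Nat.cast_le.2 (card_le_card ?_)
        intro e he
        rw [mem_filter, mem_product] at he
        rw [mem_filter]
        exact ⟨he.2, he.1⟩

theorem C5_cut_of
    (factor' : ∀ (E : Finset (X × Y)) (lx ux : X → ℕ) (ly uy : Y → ℕ),
      (∀ x, lx x ≤ ux x) → (∀ y, ly y ≤ uy y) →
      (∀ (U : Finset X) (T : Finset Y),
        ∑ x ∈ U, lx x ≤ ∑ y ∈ T, uy y + (E.filter (fun e => e.1 ∈ U ∧ e.2 ∉ T)).card) →
      (∀ (U : Finset X) (T : Finset Y),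
        ∑ y ∈ T, ly y ≤ ∑ x ∈ U, ux x + (E.filter (fun e => e.1 ∉ U ∧ e.2 ∈ T)).card) →
      ∃ H ⊆ E, (∀ x, lx x ≤ dX H x ∧ dX H x ≤ ux x) ∧
        ∀ y, ly y ≤ dY H y ∧ dY H y ≤ uy y)
    (φ : Y → X → ℝ) (hφ0 : ∀ y x, 0 ≤ φ y x) (E : Finset (X × Y))
    (hE : ∀ x y, φ y x ≠ 0 → (x, y) ∈ E) (a : Finset Y) (h1 : ∀ y ∈ a, ∑ x, φ y x = 1)
    (κ : ℝ) (hφκ : ∀ y x, φ y x * κ ≤ 1) (c₂ : ℝ) (hc : 0 ≤ c₂) (q s : ℕ)
    (hq : 2 * (q : ℝ) ≤ κ) (hs : 2 * c₂ * q ≤ s)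
    (hU : ∀ U : Finset X, |∑ x ∈ U, S φ a x - (1 + c₂) * (U.card : ℝ)| ≤
      (1 / 2) * bd φ a U + c₂ * (U.card : ℝ)) :
    ∃ H ⊆ E.filter (fun e => e.2 ∈ a), (∀ x, dX H x = q) ∧
      ∀ y ∈ a, q - s ≤ dY H y ∧ dY H y ≤ q := by
  classical
  have hq0 : (0 : ℝ) ≤ q := Nat.cast_nonneg q
  have hκ0 : 0 ≤ κ := by linarith
  -- the sums over `U`
  have ht0 : ∀ (U : Finset X) (y : Y), 0 ≤ ∑ x ∈ U, φ y x :=
    fun U y => sum_nonneg fun x _ => hφ0 y x
  have ht1 : ∀ (U : Finset X) (y : Y), y ∈ a → ∑ x ∈ U, φ y x ≤ 1 := by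
    intro U y hy
    rw [← h1 y hy]
    exact sum_le_sum_of_subset_of_nonneg (subset_univ _) fun x _ _ => hφ0 y x
  have htc : ∀ (U : Finset X) (y : Y), y ∈ a → ∑ x ∈ Uᶜ, φ y x = 1 - ∑ x ∈ U, φ y x := by
    intro U y hy
    rw [← h1 y hy, ← sum_add_sum_compl U (fun x => φ y x)]
    ring
  have hSU : ∀ U : Finset X, ∑ x ∈ U, S φ a x = ∑ y ∈ a, ∑ x ∈ U, φ y x := by
    intro U
    unfold S
    rw [sum_comm]
  have hbd0 : ∀ U : Finset X, 0 ≤ bd φ a U := by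
    intro U
    unfold bd
    refine sum_nonneg fun y hy => ?_
    exact mul_nonneg (ht0 U y) (by linarith [ht1 U y hy])
  obtain ⟨H, hHE, hHx, hHy⟩ := factor' (E.filter (fun e => e.2 ∈ a)) (fun _ => q) (fun _ => q)
    (fun y => if y ∈ a then q - s else 0) (fun y => if y ∈ a then q else 0)
    (fun x => le_refl _)
    (fun y => by
      by_cases hy : y ∈ a
      · rw [if_pos hy, if_pos hy]
        exact Nat.sub_le _ _
      · rw [if_neg hy, if_neg hy])
    (by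
      intro U T
      have hcount := C5_count φ E hE κ hφκ U (a \ T)
      have hcard : ((E.filter (fun e => e.1 ∈ U ∧ e.2 ∈ a \ T)).card : ℝ) ≤
          (((E.filter (fun e => e.2 ∈ a)).filter (fun e => e.1 ∈ U ∧ e.2 ∉ T)).card : ℝ) := by
        refine Nat.cast_le.2 (card_le_card ?_)
        intro e he
        rw [mem_filter, mem_sdiff] at he
        rw [mem_filter, mem_filter]
        exact ⟨⟨he.1, he.2.2.1⟩, he.2.1, he.2.2.2⟩
      have hUa := (abs_le.1 (hU U)).1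
      rw [hSU] at hUa
      have hT : ((∑ y ∈ T, (if y ∈ a then q else 0) : ℕ) : ℝ) = (q : ℝ) * ((a ∩ T).card : ℝ) := by
        rw [← sum_filter, sum_const, smul_eq_mul, Nat.cast_mul, mul_comm]
        congr 3
        ext y
        rw [mem_filter, mem_inter]
        tauto
      have hkey : (q : ℝ) * (∑ y ∈ a, ∑ x ∈ U, φ y x + bd φ a U) ≤
          (q : ℝ) * ((a ∩ T).card : ℝ) + (∑ y ∈ a \ T, ∑ x ∈ U, φ y x) * κ := by
        have e1 : (q : ℝ) * (∑ y ∈ a, ∑ x ∈ U, φ y x + bd φ a U) =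
            ∑ y ∈ a, (q : ℝ) * ((∑ x ∈ U, φ y x) + (∑ x ∈ U, φ y x) * (1 - ∑ x ∈ U, φ y x)) := by
          unfold bd
          rw [← sum_add_distrib, mul_sum]
        rw [e1, ← sum_inter_add_sum_sdiff a T]
        refine add_le_add ?_ ?_
        · rw [mul_comm, ← nsmul_eq_mul, ← sum_const]
          refine sum_le_sum fun y hy => ?_
          rw [mem_inter] at hy
          have h0 := ht0 U y
          have h1' := ht1 U y hy.1
          nlinarith [mul_nonneg hq0 (sq_nonneg (1 - ∑ x ∈ U, φ y x))]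
        · rw [sum_mul]
          refine sum_le_sum fun y hy => ?_
          rw [mem_sdiff] at hy
          have h0 := ht0 U y
          have h1' := ht1 U y hy.1
          nlinarith [mul_nonneg h0 (sub_nonneg.2 hq), mul_nonneg hq0 (mul_nonneg h0 h0)]
      have hfin : ((∑ x ∈ U, q : ℕ) : ℝ) ≤
          ((∑ y ∈ T, (if y ∈ a then q else 0) +
            ((E.filter (fun e => e.2 ∈ a)).filter (fun e => e.1 ∈ U ∧ e.2 ∉ T)).card : ℕ) : ℝ) := by
        rw [Nat.cast_add, hT, sum_const, smul_eq_mul, Nat.cast_mul]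
        have hb := hbd0 U
        have hlow : (U.card : ℝ) ≤ ∑ y ∈ a, ∑ x ∈ U, φ y x + bd φ a U := by linarith
        have := mul_le_mul_of_nonneg_left hlow hq0
        linarith
      exact_mod_cast hfin)
    (by
      intro U T
      have hcount := C5_count φ E hE κ hφκ Uᶜ (a ∩ T)
      have hcard : ((E.filter (fun e => e.1 ∈ Uᶜ ∧ e.2 ∈ a ∩ T)).card : ℝ) ≤
          (((E.filter (fun e => e.2 ∈ a)).filter (fun e => e.1 ∉ U ∧ e.2 ∈ T)).card : ℝ) := by
        refine Nat.cast_le.2 (card_le_card ?_)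
        intro e he
        rw [mem_filter, mem_inter, mem_compl] at he
        rw [mem_filter, mem_filter]
        exact ⟨⟨he.1, he.2.2.1⟩, he.2.1, he.2.2.2⟩
      have hUa := (abs_le.1 (hU U)).2
      rw [hSU] at hUa
      by_cases hqs : q ≤ s
      · have hz : ∑ y ∈ T, (if y ∈ a then q - s else 0) = 0 := by
          refine sum_eq_zero fun y _ => ?_
          have : q - s = 0 := Nat.sub_eq_zero_of_le hqs
          rw [this, ite_self]
        rw [hz]
        exact Nat.zero_le _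
      have hsq : (s : ℝ) ≤ q := by exact_mod_cast (le_of_lt (not_le.1 hqs))
      have hT : ((∑ y ∈ T, (if y ∈ a then q - s else 0) : ℕ) : ℝ) =
          ((q : ℝ) - s) * ((a ∩ T).card : ℝ) := by
        rw [← sum_filter, sum_const, smul_eq_mul, Nat.cast_mul, mul_comm,
          Nat.cast_sub (le_of_lt (not_le.1 hqs))]
        congr 3
        ext y
        rw [mem_filter, mem_inter]
        tauto
      have hkey : ((q : ℝ) - s) * ((a ∩ T).card : ℝ) - (∑ y ∈ a ∩ T, ∑ x ∈ Uᶜ, φ y x) * κ ≤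
          ((q : ℝ) - s) * (∑ y ∈ a, ∑ x ∈ U, φ y x - bd φ a U) := by
        have e1 : ((q : ℝ) - s) * (∑ y ∈ a, ∑ x ∈ U, φ y x - bd φ a U) =
            ∑ y ∈ a, ((q : ℝ) - s) *
              ((∑ x ∈ U, φ y x) - (∑ x ∈ U, φ y x) * (1 - ∑ x ∈ U, φ y x)) := by
          unfold bd
          rw [← sum_sub_distrib, mul_sum]
        have e2 : ((q : ℝ) - s) * ((a ∩ T).card : ℝ) - (∑ y ∈ a ∩ T, ∑ x ∈ Uᶜ, φ y x) * κ =
            ∑ y ∈ a ∩ T, (((q : ℝ) - s) - (∑ x ∈ Uᶜ, φ y x) * κ) := by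
          rw [sum_sub_distrib, sum_const, nsmul_eq_mul, sum_mul, mul_comm]
        rw [e1, e2]
        refine le_trans ?_ (sum_le_sum_of_subset_of_nonneg (inter_subset_left (s₂ := T)) ?_)
        · refine sum_le_sum fun y hy => ?_
          rw [mem_inter] at hy
          rw [htc U y hy.1]
          have h0 := ht0 U y
          have h1' := ht1 U y hy.1
          have hs0 : (0 : ℝ) ≤ s := Nat.cast_nonneg s
          have h2 : 0 ≤ 1 - ∑ x ∈ U, φ y x := by linarith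
          nlinarith [mul_nonneg h2 (sub_nonneg.2 hq), mul_nonneg h2 hs0,
            mul_nonneg (sub_nonneg.2 hsq) (mul_nonneg h2 h2)]
        · intro y _ _
          refine mul_nonneg (sub_nonneg.2 hsq) ?_
          have h0 := ht0 U y
          nlinarith [mul_nonneg h0 h0]
      have hfin : ((∑ y ∈ T, (if y ∈ a then q - s else 0) : ℕ) : ℝ) ≤
          ((∑ x ∈ U, q +
            ((E.filter (fun e => e.2 ∈ a)).filter (fun e => e.1 ∉ U ∧ e.2 ∈ T)).card : ℕ) : ℝ) := by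
        rw [Nat.cast_add, hT, sum_const, smul_eq_mul, Nat.cast_mul]
        have hb := hbd0 U
        have hs0 : (0 : ℝ) ≤ s := Nat.cast_nonneg s
        have hcardU : (0 : ℝ) ≤ (U.card : ℝ) := Nat.cast_nonneg _
        have hup : ∑ y ∈ a, ∑ x ∈ U, φ y x - bd φ a U ≤ (1 + 2 * c₂) * (U.card : ℝ) := by
          linarith
        have h3 := mul_le_mul_of_nonneg_left hup (sub_nonneg.2 hsq)
        have h4 : ((q : ℝ) - s) * ((1 + 2 * c₂) * (U.card : ℝ)) ≤ (U.card : ℝ) * q := by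
          have h5 : ((q : ℝ) - s) * (1 + 2 * c₂) ≤ q := by
            nlinarith [mul_nonneg hc hs0]
          calc ((q : ℝ) - s) * ((1 + 2 * c₂) * (U.card : ℝ))
              = (((q : ℝ) - s) * (1 + 2 * c₂)) * (U.card : ℝ) := by ring
            _ ≤ q * (U.card : ℝ) := mul_le_mul_of_nonneg_right h5 hcardU
            _ = (U.card : ℝ) * q := mul_comm _ _
        linarith
      exact_mod_cast hfin)
  refine ⟨H, hHE, fun x => le_antisymm (hHx x).2 (hHx x).1, fun y hy => ?_⟩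
  have := hHy y
  rwa [if_pos hy, if_pos hy] at this

/-- pi:C5 -- from the cut estimate to an almost regular subgraph -/
theorem cut (φ : Y → X → ℝ) (hφ0 : ∀ y x, 0 ≤ φ y x) (E : Finset (X × Y))
    (hE : ∀ x y, φ y x ≠ 0 → (x, y) ∈ E) (a : Finset Y) (h1 : ∀ y ∈ a, ∑ x, φ y x = 1)
    (κ : ℝ) (hφκ : ∀ y x, φ y x * κ ≤ 1) (c₂ : ℝ) (hc : 0 ≤ c₂) (q s : ℕ)
    (hq : 2 * (q : ℝ) ≤ κ) (hs : 2 * c₂ * q ≤ s)
    (hU : ∀ U : Finset X, |∑ x ∈ U, S φ a x - (1 + c₂) * (U.card : ℝ)| ≤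
      (1 / 2) * bd φ a U + c₂ * (U.card : ℝ)) :
    ∃ H ⊆ E.filter (fun e => e.2 ∈ a), (∀ x, dX H x = q) ∧
      ∀ y ∈ a, q - s ≤ dY H y ∧ dY H y ≤ q :=
  C5_cut_of (fun E lx ux ly uy hxle hyle h1 h2 => factor E lx ux ly uy hxle hyle h1 h2)
    φ hφ0 E hE a h1 κ hφκ c₂ hc q s hq hs hU

end block

end Pool.Agent.helper87.PI
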