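import Mathlib
import Pool.Agent.helper87.PI.Defs
import Pool.Agent.helper92.PI.A3

set_option autoImplicit false

/-! pi:C6 (project PI, MP_93b131_co): random labels. -/

namespace Pool.Agent.helper87.PI

open Finset

section block

variable {X Y : Type} [Fintype X] [Fintype Y] [DecidableEq X] [DecidableEq Y]

/-- the weights of the labels -/
noncomputable def C6_w {R : ℕ} (p : Y → ℝ) (μ0 : ℝ) (y : Y) (o : Option (Fin R)) : ℝ :=
  o.elim (1 - (R : ℝ) * (μ0 * p y)) (fun _ => μ0 * p y)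

/-- the centred variables -/
noncomputable def C6_Z {R : ℕ} (φ : Y → X → ℝ) (p : Y → ℝ) (μ0 : ℝ) (xj : X × Fin R) (y : Y)
    (o : Option (Fin R)) : ℝ :=
  φ y xj.1 * ((if o = some xj.2 then 1 else 0) - μ0 * p y)

omit [Fintype Y] [DecidableEq Y] in
theorem C6_sum_w {R : ℕ} (p : Y → ℝ) (μ0 : ℝ) (y : Y) :
    ∑ o : Option (Fin R), C6_w p μ0 y o = 1 := by
  rw [Fintype.sum_option]
  simp only [C6_w, Option.elim]
  rw [sum_const, card_univ, Fintype.card_fin, nsmul_eq_mul]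
  ring

omit [Fintype Y] [DecidableEq Y] in
theorem C6_sum_ind {R : ℕ} (p : Y → ℝ) (μ0 : ℝ) (y : Y) (j : Fin R) (g : ℝ → ℝ) :
    ∑ o : Option (Fin R), C6_w p μ0 y o * g (if o = some j then 1 else 0) =
      μ0 * p y * g 1 + (1 - μ0 * p y) * g 0 := by
  have h : ∀ o : Option (Fin R), C6_w p μ0 y o * g (if o = some j then 1 else 0) =
      C6_w p μ0 y o * g 0 + (if o = some j then μ0 * p y * (g 1 - g 0) else 0) := by
    intro o
    by_cases ho : o = some j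
    · rw [if_pos ho, if_pos ho, ho]
      simp only [C6_w, Option.elim]
      ring
    · rw [if_neg ho, if_neg ho, add_zero]
  rw [sum_congr rfl (fun o _ => h o), sum_add_distrib, ← sum_mul, C6_sum_w, sum_ite_eq' univ,
    if_pos (mem_univ _)]
  ring

theorem C6_labels_of {R : ℕ}
    (master' : ∀ (w : Y → Option (Fin R) → ℝ), (∀ i a, 0 ≤ w i a) → (∀ i, ∑ a, w i a = 1) →
      ∀ (D : X × Fin R → Finset Y) (d₁ d₂ : ℕ), (∀ j, (D j).card ≤ d₂) →
      (∀ i, (univ.filter (fun j => i ∈ D j)).card ≤ d₁) →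
      ∀ (Z : X × Fin R → Y → Option (Fin R) → ℝ), (∀ j, ∀ i ∈ D j, ∑ a, w i a * Z j i a = 0) →
      ∀ (b V f : X × Fin R → ℝ) (Λ : ℝ), (∀ j, 0 < b j) → (∀ j, ∀ i ∈ D j, ∀ a, |Z j i a| ≤ b j) →
      (∀ j, ∑ i ∈ D j, ∑ a, w i a * Z j i a ^ 2 ≤ V j) →
      (∀ j, 4 * Λ * V j ≤ f j ^ 2) → (∀ j, 2 * Λ * b j ≤ f j) →
      8 * ((d₁ : ℝ) * d₂ + 1) ≤ Real.exp Λ →
      ∃ ω : Y → Option (Fin R), ∀ j, |∑ i ∈ D j, Z j i (ω i)| ≤ f j)
    (φ : Y → X → ℝ) (p : Y → ℝ) (Δ : ℕ) (κ Λ μ0 : ℝ)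
    (hφ0 : ∀ y x, 0 ≤ φ y x) (hφκ : ∀ y x, φ y x * κ ≤ 1) (hΛ0 : 0 < Λ) (hΛκ : Λ ≤ κ)
    (hp0 : ∀ y, 0 ≤ p y) (hp1 : ∀ y, (R : ℝ) * (μ0 * p y) ≤ 1) (hμ0 : 0 ≤ μ0) (hμ2 : μ0 ≤ 2)
    (hpφ : ∀ x, ∑ y, p y * φ y x = 1)
    (hdx : ∀ x, (univ.filter (fun y => φ y x ≠ 0)).card ≤ Δ)
    (hdy : ∀ y, (univ.filter (fun x => φ y x ≠ 0)).card ≤ Δ) (hR : R ≤ Δ)
    (hΛ : 8 * ((Δ : ℝ) ^ 3 + 1) ≤ Real.exp Λ) :
    ∃ t : Y → Option (Fin R), ∀ (x : X) (j : Fin R),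
      |S φ (univ.filter (fun y => t y = some j)) x - μ0| ≤ 3 * Real.sqrt (Λ / κ) := by
  classical
  have hκ : 0 < κ := lt_of_lt_of_le hΛ0 hΛκ
  have hu0 : 0 ≤ Λ / κ := by positivity
  have hu1 : Λ / κ ≤ 1 := (div_le_one hκ).2 hΛκ
  have hμp0 : ∀ y, 0 ≤ μ0 * p y := fun y => mul_nonneg hμ0 (hp0 y)
  have hφb : ∀ y x, φ y x ≤ 1 / κ := fun y x => (le_div_iff₀ hκ).2 (hφκ y x)
  have hμp1 : ∀ (y : Y) (_ : Fin R), μ0 * p y ≤ 1 := by
    intro y j
    have hR1 : (1 : ℝ) ≤ R := by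
      have : 0 < R := lt_of_le_of_lt (Nat.zero_le _) j.2
      exact_mod_cast this
    nlinarith [hp1 y, hμp0 y]
  obtain ⟨t, ht⟩ := master' (C6_w p μ0)
    (by
      intro y o
      cases o with
      | none =>
        simp only [C6_w, Option.elim]
        linarith [hp1 y]
      | some j =>
        simp only [C6_w, Option.elim]
        exact hμp0 y)
    (fun y => C6_sum_w p μ0 y)
    (fun xj => univ.filter (fun y => φ y xj.1 ≠ 0)) (Δ * R) Δ
    (fun xj => hdx xj.1)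
    (by
      intro y
      have h : (univ.filter (fun xj : X × Fin R => y ∈ univ.filter (fun y => φ y xj.1 ≠ 0))) =
          (univ.filter (fun x => φ y x ≠ 0)) ×ˢ (univ : Finset (Fin R)) := by
        ext ⟨x, j⟩
        simp only [mem_filter, mem_univ, true_and, mem_product, and_true]
      rw [h, card_product, card_univ, Fintype.card_fin]
      exact Nat.mul_le_mul_right _ (hdy y))
    (C6_Z φ p μ0)
    (by
      intro xj y _
      have h := C6_sum_ind p μ0 y xj.2 (fun v => φ y xj.1 * (v - μ0 * p y))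
      simp only [C6_Z]
      rw [h]
      ring)
    (fun _ => 1 / κ) (fun _ => 2 / κ) (fun _ => 3 * Real.sqrt (Λ / κ)) Λ
    (fun _ => by positivity)
    (by
      intro xj y _ o
      simp only [C6_Z]
      rw [abs_mul, abs_of_nonneg (hφ0 y xj.1)]
      have h1 : |(if o = some xj.2 then (1 : ℝ) else 0) - μ0 * p y| ≤ 1 := by
        have h2 := hμp0 y
        have h3 := hμp1 y xj.2
        by_cases ho : o = some xj.2
        · rw [if_pos ho, abs_le]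
          constructor <;> linarith
        · rw [if_neg ho, abs_le]
          constructor <;> linarith
      calc φ y xj.1 * |(if o = some xj.2 then (1 : ℝ) else 0) - μ0 * p y|
          ≤ φ y xj.1 * 1 := mul_le_mul_of_nonneg_left h1 (hφ0 y xj.1)
        _ = φ y xj.1 := mul_one _
        _ ≤ 1 / κ := hφb y xj.1)
    (by
      intro xj
      have h1 : ∀ y, ∑ o, C6_w p μ0 y o * C6_Z φ p μ0 xj y o ^ 2 =
          φ y xj.1 ^ 2 * (μ0 * p y * (1 - μ0 * p y)) := by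
        intro y
        have h := C6_sum_ind p μ0 y xj.2 (fun v => (φ y xj.1 * (v - μ0 * p y)) ^ 2)
        simp only [C6_Z]
        rw [h]
        ring
      have h2 : ∀ y, φ y xj.1 ^ 2 * (μ0 * p y * (1 - μ0 * p y)) ≤
          μ0 / κ * (p y * φ y xj.1) := by
        intro y
        have h3 := hφ0 y xj.1
        have h4 := hφb y xj.1
        have h5 := hμp0 y
        have h6 : φ y xj.1 ^ 2 ≤ (1 / κ) * φ y xj.1 := by
          rw [sq]
          exact mul_le_mul_of_nonneg_right h4 h3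
        have h7 : μ0 * p y * (1 - μ0 * p y) ≤ μ0 * p y := by nlinarith
        calc φ y xj.1 ^ 2 * (μ0 * p y * (1 - μ0 * p y))
            ≤ φ y xj.1 ^ 2 * (μ0 * p y) := mul_le_mul_of_nonneg_left h7 (sq_nonneg _)
          _ ≤ ((1 / κ) * φ y xj.1) * (μ0 * p y) := mul_le_mul_of_nonneg_right h6 h5
          _ = μ0 / κ * (p y * φ y xj.1) := by ring
      have h0 : ∀ y, 0 ≤ μ0 / κ * (p y * φ y xj.1) := fun y =>
        mul_nonneg (by positivity) (mul_nonneg (hp0 y) (hφ0 y xj.1))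
      calc ∑ y ∈ univ.filter (fun y => φ y xj.1 ≠ 0),
            ∑ o, C6_w p μ0 y o * C6_Z φ p μ0 xj y o ^ 2
          ≤ ∑ y ∈ univ.filter (fun y => φ y xj.1 ≠ 0), μ0 / κ * (p y * φ y xj.1) := by
            refine sum_le_sum fun y _ => ?_
            rw [h1 y]
            exact h2 y
        _ ≤ ∑ y, μ0 / κ * (p y * φ y xj.1) :=
            sum_le_sum_of_subset_of_nonneg (filter_subset _ _) fun y _ _ => h0 y
        _ = μ0 / κ := by rw [← mul_sum, hpφ, mul_one]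
        _ ≤ 2 / κ := div_le_div_of_nonneg_right hμ2 hκ.le)
    (by
      intro _
      rw [mul_pow, Real.sq_sqrt hu0]
      have : 4 * Λ * (2 / κ) = 8 * (Λ / κ) := by ring
      rw [this]
      linarith)
    (by
      intro _
      have h1 : 2 * Λ * (1 / κ) = 2 * (Λ / κ) := by ring
      rw [h1]
      have h2 : Λ / κ ≤ Real.sqrt (Λ / κ) := by
        refine Real.le_sqrt_of_sq_le ?_
        rw [sq]
        exact mul_le_of_le_one_left hu0 hu1
      have h3 : 0 ≤ Real.sqrt (Λ / κ) := Real.sqrt_nonneg _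
      linarith)
    (by
      refine le_trans ?_ hΛ
      have hRr : (R : ℝ) ≤ Δ := by exact_mod_cast hR
      have hΔ0 : (0 : ℝ) ≤ Δ := Nat.cast_nonneg _
      have h2 : (Δ : ℝ) * R * Δ ≤ (Δ : ℝ) ^ 3 := by
        calc (Δ : ℝ) * R * Δ ≤ (Δ : ℝ) * Δ * Δ :=
              mul_le_mul_of_nonneg_right (mul_le_mul_of_nonneg_left hRr hΔ0) hΔ0
          _ = (Δ : ℝ) ^ 3 := by ring
      rw [Nat.cast_mul]
      linarith)
  refine ⟨t, fun x j => ?_⟩
  have h := ht (x, j)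
  have hS : ∑ y ∈ univ.filter (fun y => φ y x ≠ 0), C6_Z φ p μ0 (x, j) y (t y) =
      S φ (univ.filter (fun y => t y = some j)) x - μ0 := by
    have h1 : ∑ y ∈ univ.filter (fun y => φ y x ≠ 0), C6_Z φ p μ0 (x, j) y (t y) =
        ∑ y, C6_Z φ p μ0 (x, j) y (t y) := by
      rw [sum_filter]
      refine sum_congr rfl fun y _ => ?_
      by_cases h0 : φ y x = 0
      · rw [if_neg (not_not.2 h0)]
        simp only [C6_Z]
        rw [h0, zero_mul]
      · rw [if_pos h0]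
    rw [h1]
    unfold S
    rw [sum_filter]
    have h2 : ∀ y, C6_Z φ p μ0 (x, j) y (t y) =
        (if t y = some j then φ y x else 0) - μ0 * (p y * φ y x) := by
      intro y
      simp only [C6_Z]
      by_cases h0 : t y = some j
      · rw [if_pos h0, if_pos h0]
        ring
      · rw [if_neg h0, if_neg h0]
        ring
    rw [sum_congr rfl (fun y _ => h2 y), sum_sub_distrib, ← mul_sum, hpφ, mul_one]
  rw [← hS]
  exact h

/-- pi:C6 -- random labels -/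
theorem labels (φ : Y → X → ℝ) (p : Y → ℝ) (Δ R : ℕ) (κ Λ μ0 : ℝ)
    (hφ0 : ∀ y x, 0 ≤ φ y x) (hφκ : ∀ y x, φ y x * κ ≤ 1) (hΛ0 : 0 < Λ) (hΛκ : Λ ≤ κ)
    (hp0 : ∀ y, 0 ≤ p y) (hp1 : ∀ y, (R : ℝ) * (μ0 * p y) ≤ 1) (hμ0 : 0 ≤ μ0) (hμ2 : μ0 ≤ 2)
    (hpφ : ∀ x, ∑ y, p y * φ y x = 1)
    (hdx : ∀ x, (univ.filter (fun y => φ y x ≠ 0)).card ≤ Δ)
    (hdy : ∀ y, (univ.filter (fun x => φ y x ≠ 0)).card ≤ Δ) (hR : R ≤ Δ)
    (hΛ : 8 * ((Δ : ℝ) ^ 3 + 1) ≤ Real.exp Λ) :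
    ∃ t : Y → Option (Fin R), ∀ (x : X) (j : Fin R),
      |S φ (univ.filter (fun y => t y = some j)) x - μ0| ≤ 3 * Real.sqrt (Λ / κ) := by
  classical
  refine C6_labels_of ?_ φ p Δ κ Λ μ0 hφ0 hφκ hΛ0 hΛκ hp0 hp1 hμ0 hμ2 hpφ hdx hdy hR hΛ
  intro w hw0 hw1 D d₁ d₂ hD2 hD1 Z hZ0 b V f Λ' hb0 hb hV hf1 hf2 hΛ'
  exact master w hw0 hw1 D d₁ d₂ hD2 hD1 Z hZ0 b V f Λ' hb0 hb hV hf1 hf2 hΛ'

end block

end Pool.Agent.helper87.PI
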